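import Pool.Agent.Lib.helper9.ShB
import Pool.Agent.Lib.helper9.ShC

namespace Pool.Agent.Results.MP_593132_lc.SharpP

open Pool.Agent.Cx Pool.Agent.Pe Polynomial

/-- the relation on `0, ..., n-1` given by the 0-1 matrix `M` with `n` rows -/
def Le (M : List (List Bool)) (i j : Fin M.length) : Prop := (M.getD i []).getD j false = true

/-- `M` is a square matrix of a partial order -/
def IsPoset (M : List (List Bool)) : Prop := (∀ r ∈ M, r.length = M.length) ∧ (∀ i, Le M i i) ∧
  (∀ i j, Le M i j → Le M j i → i = j) ∧ ∀ i j k, Le M i j → Le M j k → Le M i k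

/-- the number of order-preserving self-maps -/
noncomputable def endc (M : List (List Bool)) : ℕ :=
  Nat.card {f : Fin M.length → Fin M.length // ∀ i j, Le M i j → Le M (f i) (f j)}

def R (n : ℕ) (r : ℕ → ℕ → Bool) (i j : Fin n) : Prop := r i j = true

lemma mat_spec {n : ℕ} {r : ℕ → ℕ → Bool} : endc (mat (List.range n) r) = H (R n r) (R n r) ∧
    ((∀ i < n, r i i) → (∀ i < n, ∀ j < n, r i j → r j i → i = j) →
      (∀ i < n, ∀ j < n, ∀ k < n, r i j → r j k → r i k) → IsPoset (mat (List.range n) r)) := by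
  have e : (mat (List.range n) r).length = n := by simp
  have l : ∀ i : Fin (mat (List.range n) r).length, i.1 < n := fun i => i.2.trans_eq e
  have h : ∀ i j, Le (mat (List.range n) r) i j ↔ r i j = true := fun i j => by
    rw [Le, mat_get]; simp [l]
  refine ⟨H_congr (finCongr e) (finCongr e) h h, fun a b c => ⟨mat_row _ _, ?_⟩⟩
  simp only [h, Fin.ext_iff]
  exact ⟨fun i => a _ (l i), fun i j => b _ (l i) _ (l j), fun i j k => c _ (l i) _ (l j) _ (l k)⟩

def bad (z : ℕ × CNF) : List (List ℕ) := (List.range z.1).map (fun v => [2 * v + 1, 2 * v + 2]) ++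
  z.2.map fun c => c.map fun l => 2 * l.1 + (!l.2).toNat + 1

def zs (z : ℕ × CNF) : List (List ℕ) := (List.replicate (2 * z.1 + 2)
  ((List.range (2 * z.1 + 1)).map (fun i => [i]) ++ (List.replicate (2 * z.1 + 2) (bad z)).flatten)).flatten

def sz (z : ℕ × CNF) : ℕ := 2 * z.1 + 1 + (zs z).length

def r1 (z : ℕ × CNF) (i j : ℕ) : Bool := decide (i = j ∨ i < 2 * z.1 + 1 ∧ 2 * z.1 + 1 ≤ j ∧
  (i = 0 ∨ i ∈ (zs z).getD (j - (2 * z.1 + 1)) []))

def r2 (z : ℕ × CNF) (i j : ℕ) : Bool := if i < sz z then decide (j < sz z) && r1 z i j else decide (i ≤ j)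

def pc (z : ℕ × CNF) : ℕ :=
  ((Finset.range (sz z + 2) ×ˢ Finset.range (sz z + 2)).filter fun p => r2 z p.1 p.2 = true).card

def ch {a : ℕ} (g : Fin a → Fin 2) (i : ℕ) : Bool := decide (∀ h : i < a, g ⟨i, h⟩ = 0)

def ins {a : ℕ} (g : Fin a → Fin 2) (S : List ℕ) : Bool := ch g 0 && S.all (ch g)

def st (z : ℕ × CNF) (g : Fin (2 * z.1 + 1) → Fin 2) : ℕ :=
  (List.range (2 * z.1 + 1)).countP (fun i => ch g 0 && ch g i) + (2 * z.1 + 2) * (bad z).countP (ins g)

lemma count1 (z : ℕ × CNF) :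
    H (R (sz z) (r1 z)) (fun x y : Fin 2 => x ≤ y) = ∑ g, (2 ^ (2 * z.1 + 2)) ^ st z g := by
  refine (H_congr (r := bp fun (i : Fin (2 * z.1 + 1)) (y : Fin (zs z).length) =>
    i.1 = 0 ∨ i.1 ∈ (zs z).getD y []) finSumFinEquiv (Equiv.refl _) ?_ fun _ _ => Iff.rfl).symm.trans
      ((H_bp _).trans ?_)
  swap
  · refine Finset.sum_congr (by ext; simp) fun g _ => ?_
    rw [← pow_mul]; congr 1
    refine Eq.trans ?_ ((card_getD (zs z) [] (ins g)).trans ?_)
    · congr 1; ext y
      simp only [ins, ch, Finset.mem_filter, Finset.mem_univ, true_and, Bool.and_eq_true, List.all_eq_true,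
        decide_eq_true_eq]
      exact ⟨fun h => ⟨fun _ => h _ (.inl rfl), fun i a _ => h _ (.inr a)⟩, fun h ⟨i, a⟩ b =>
        b.elim (fun e => by subst e; exact h.1 a) (h.2 i · a)⟩
    · simp [zs, st, List.countP_flatten, ins, Function.comp_def]
  · have a : ∀ i, (finSumFinEquiv (m := 2 * z.1 + 1) (n := (zs z).length) (.inl i)).1 = i.1 := fun _ => rfl
    have b : ∀ i, (finSumFinEquiv (m := 2 * z.1 + 1) (n := (zs z).length) (.inr i)).1 = 2 * z.1 + 1 + i.1 :=
      fun _ => rfl
    rintro (i | i) (j | j) <;> have := i.2 <;> have := j.2 <;>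
      simp only [bp, R, r1, Fin.ext_iff, a, b, decide_eq_true_eq, Nat.add_sub_cancel_left] <;> grind

lemma count2 (z : ℕ × CNF) : H (R (sz z + 2) (r2 z)) (R (sz z + 2) (r2 z)) =
    (H (R (sz z) (r1 z)) (R (sz z) (r1 z)) + H (R (sz z) (r1 z)) fun x y : Fin 2 => x ≤ y) * pc z := by
  have h : ∀ x y, Sum.LiftRel (R (sz z) (r1 z)) (fun x y : Fin 2 => x ≤ y) x y ↔
      R (sz z + 2) (r2 z) (finSumFinEquiv x) (finSumFinEquiv y) := by
    rintro (i | i) (j | j) <;> have := i.2 <;> simp [R, r2]; omega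
  rw [← H_congr _ _ h h, H_sum, H_conn _ _ ⟨0, by unfold sz; omega⟩, H_congr (Equiv.refl _) _
    (fun _ _ => Iff.rfl) h, H_two, pc, ← card_pairs]
  · rfl
  · intro x; simp [R, r2, r1]
  · intro x
    by_cases c : x.1 < 2 * z.1 + 1
    · obtain ⟨k, hk, e⟩ := List.getElem_of_mem (l := zs z) (a := [x.1]) (by simp [zs]; omega)
      exact ⟨⟨2 * z.1 + 1 + k, by unfold sz; omega⟩, by simp [R, r1, c, hk, e], by simp [R, r1]⟩
    · exact ⟨x, by simp [R, r1], by simp [R, r1]; omega⟩

lemma count3 {z : ℕ × CNF} (hz : ∀ c ∈ z.2, ∀ l ∈ c, l.1 < z.1) :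
    cntS z = (Finset.univ.filter fun g => st z g = z.1 + 1).card := by
  let G := fun (τ : ℕ → Bool) (i : Fin (2 * z.1 + 1)) =>
    if i.1 = 0 ∨ τ ((i.1 - 1) / 2) = decide ((i.1 - 1) % 2 = 1) then (0 : Fin 2) else 1
  have hG : ∀ τ, ch (G τ) 0 = true ∧ ∀ v < z.1, ∀ b : Bool, ch (G τ) (2 * v + b.toNat + 1) = decide (τ v = b) :=
    fun τ => ⟨by simp [ch, G], fun v hv b => by
      have : 2 * v + b.toNat + 1 < 2 * z.1 + 1 := by cases b <;> simp <;> omega
      simp only [ch, this, forall_true_left, G]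
      cases b <;> simp [Nat.mul_add_div]⟩
  rw [cntS, ← Set.ncard_coe_finset]
  refine Set.ncard_congr (fun τ _ => G τ) (fun τ hτ => ?_) (fun τ τ' h h' e => funext fun v => ?_)
    fun g hg => ?_
  · have : (bad z).countP (ins (G τ)) = 0 := List.countP_eq_zero.2 fun S hS => by
      simp only [bad, List.mem_append, List.mem_map, List.mem_range] at hS
      rcases hS with ⟨v, hv, rfl⟩ | ⟨c, hc, rfl⟩
      · have a := (hG τ).2 v hv true
        have b := (hG τ).2 v hv false
        simp at a b; simp [ins, a, b]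
      · obtain ⟨l, a, b⟩ := hτ.2 c hc
        simp only [ins, Bool.and_eq_true, List.all_eq_true, List.forall_mem_map, not_and, not_forall]
        exact fun _ => ⟨l, a, by simp [(hG τ).2 _ (hz c hc l a), b]⟩
    simp only [Finset.coe_filter, Finset.mem_univ, true_and, Set.mem_ofPred_eq, st, this, cnt_range, (hG τ).1]
    rw [Finset.sum_congr rfl (g := fun _ => 1) fun v hv => by
      have a := (hG τ).2 v (Finset.mem_range.1 hv) true
      have b := (hG τ).2 v (Finset.mem_range.1 hv) false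
      simp at a b; simp [a, b]; cases τ v <;> rfl]
    simp [add_comm]
  · rcases lt_or_ge v z.1 with c | c
    · have := (hG τ).2 v c true
      rw [e, (hG τ').2 v c true] at this
      simpa using this.symm
    · rw [h.1 v c, h'.1 v c]
  · simp only [Finset.coe_filter, Finset.mem_univ, true_and, Set.mem_ofPred_eq, st] at hg
    have h0 : (bad z).countP (ins g) = 0 := by by_contra c; nlinarith [Nat.pos_of_ne_zero c]
    have h1 : ch g 0 = true := by by_contra c; simp [h0, Bool.eq_false_iff.2 c] at hg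
    rw [List.countP_eq_zero] at h0
    simp only [cnt_range, h1, List.countP_eq_zero.2 h0, Bool.true_and] at hg
    have h2 : ∀ v ∈ Finset.range z.1, (ch g (2 * v + 1)).toNat + (ch g (2 * v + 2)).toNat ≤ 1 := fun v hv => by
      have := h0 [2 * v + 1, 2 * v + 2] (by simp [bad]; exact .inl (Finset.mem_range.1 hv))
      revert this; cases e : ch g (2 * v + 1) <;> cases e' : ch g (2 * v + 2) <;> simp [ins, e, e', h1]
    have h3 := (Finset.sum_eq_sum_iff_of_le h2).1 (by simp at hg ⊢; omega)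
    have h4 : ∀ v < z.1, ∀ b : Bool, ch g (2 * v + b.toNat + 1) = decide (ch g (2 * v + 2) = b) :=
      fun v hv b => by
      have := h3 v (Finset.mem_range.2 hv)
      revert this; cases b <;> cases e : ch g (2 * v + 1) <;> cases e' : ch g (2 * v + 2) <;> simp [e, e']
    refine ⟨fun v => if v < z.1 then ch g (2 * v + 2) else true, ⟨fun v hv => if_neg hv.not_gt,
      fun c hc => ?_⟩, funext fun i => ?_⟩
    · have := h0 _ (List.mem_append_right _ (List.mem_map_of_mem hc))
      simp only [ins, h1, Bool.true_and, List.all_eq_true, List.forall_mem_map, not_forall] at this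
      obtain ⟨l, a, b⟩ := this
      exact ⟨l, a, by simpa [hz c hc l a, h4 _ (hz c hc l a)] using b⟩
    · have k : ∀ g : Fin (2 * z.1 + 1) → Fin 2, g i = if ch g i then 0 else 1 := fun g => by
        simp only [ch, i.2, forall_true_left, decide_eq_true_eq, Fin.eta]
        generalize g i = t; revert t; decide
      rw [k g, k (G fun v => if v < z.1 then ch g (2 * v + 2) else true)]
      by_cases c : i.1 = 0
      · simp [c, h1, (hG _).1]
      · have hv : (i.1 - 1) / 2 < z.1 := by omega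
        have e : i.1 = 2 * ((i.1 - 1) / 2) + (decide ((i.1 - 1) % 2 = 1)).toNat + 1 := by
          by_cases d : (i.1 - 1) % 2 = 1 <;> simp [d] <;> omega
        rw [e, h4 _ hv, (hG fun v => if v < z.1 then ch g (2 * v + 2) else true).2 _ hv]; simp [hv]

def M1 (z : ℕ × CNF) := mat (List.range (sz z)) (r1 z)

def M2 (z : ℕ × CNF) := mat (List.range (sz z + 2)) (r2 z)

lemma posets (z : ℕ × CNF) : IsPoset (M1 z) ∧ IsPoset (M2 z) := by
  constructor <;> refine mat_spec.2 ?_ ?_ ?_ <;> simp only [r2, r1] <;> grind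

lemma formula {z : ℕ × CNF} (hz : ∀ c ∈ z.2, ∀ l ∈ c, l.1 < z.1) : 0 < pc z ∧ (cntS z : ℤ) =
    max ((endc (M2 z) : ℤ) / max (pc z : ℤ) 1 - endc (M1 z)) 0 / (2 ^ (2 * z.1 + 2)) ^ (z.1 + 1) %
      2 ^ (2 * z.1 + 2) := by
  have h : 0 < pc z := Finset.card_pos.2 ⟨(0, 0), by simp [r2, r1]⟩
  refine ⟨h, ?_⟩
  rw [M1, M2, mat_spec.1, mat_spec.1, count2, count1, count3 hz, ← digit (b := 2 ^ (2 * z.1 + 2)) _ (by
    simp [pow_succ]), max_eq_left (b := 1) (by exact_mod_cast h), Nat.cast_mul, Int.mul_ediv_cancel _ (by omega),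
    Nat.cast_add, add_sub_cancel_left, max_eq_left (Nat.cast_nonneg _)]
  norm_cast

section
variable {α : Type} [Enc α] {z : α → ℕ × CNF} {i j : α → ℕ}

@[fun_prop] lemma pt_zs (h : PT z) : PT fun a => zs (z a) := by unfold zs bad; fun_prop

@[fun_prop] lemma pt_sz (h : PT z) : PT fun a => sz (z a) := by unfold sz; fun_prop

@[fun_prop] lemma pt_r1 (h : PT z) (hi : PT i) (hj : PT j) : PT fun a => r1 (z a) (i a) (j a) :=
  PP.decide (by fun_prop)

@[fun_prop] lemma pt_r2 (h : PT z) (hi : PT i) (hj : PT j) : PT fun a => r2 (z a) (i a) (j a) := by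
  unfold r2; fun_prop

@[fun_prop] lemma pt_pc (h : PT z) : PT fun a => (pc (z a) : ℤ) :=
  (PT.sumZ (PT.replicate (PT.card2 (by fun_prop) (by fun_prop) (by fun_prop) : PT fun a => pc (z a))
    (PT.const 1))).of_eq fun a => by simp [pc]

def dz (x : List Bool) : List Bool × List (List Bool) := decode x

@[fun_prop] lemma pt_dz {x : α → List Bool} (h : PT x) : PT fun a => dz (x a) := h.decode

@[simp] lemma dz_enc (I : List Bool × List (List Bool)) : dz (enc I) = I := by simp [dz]

attribute [irreducible] dz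

end

lemma hard {F : List Bool → ℕ} (hF : InSharpP F) {O : List Bool → List Bool}
    (hO : ∀ M, IsPoset M → O (enc M) = enc (endc M : ℤ)) : CookF F O := by
  obtain ⟨g, hg, e⟩ := sharp_cook hF
  have h1 : PT fun x => M1 (g x) := by unfold M1; fun_prop
  have h2 : PT fun x => M2 (g x) := by unfold M2; fun_prop
  obtain ⟨p, hp⟩ := h1.bound
  obtain ⟨q, hq⟩ := h2.bound
  let Q := fun x => enc (bif (dz x).2.isEmpty then M1 (g (dz x).1) else M2 (g (dz x).1))
  have a := PT.divmod (f := fun x => max (decode ((dz x).2.getD 1 [])) 0)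
    (g := fun x => max (pc (g (dz x).1) : ℤ) 1) (by fun_prop) (by fun_prop) (by simp) (by simp)
  have b := PT.divmod (f := fun x => max (max (decode ((dz x).2.getD 1 [])) 0 / max (pc (g (dz x).1) : ℤ) 1 -
    decode ((dz x).2.getD 0 [])) 0) (g := fun x => (2 ^ (2 * (g (dz x).1).1 + 2)) ^ ((g (dz x).1).1 + 1))
    (PT.maxZ (a.fst.subZ (by fun_prop)) (by fun_prop)) (by fun_prop) (by simp) (by simp)
  have c := PT.divmod (g := fun x => 2 ^ (2 * (g (dz x).1).1 + 2)) b.fst (by fun_prop)
    (fun _ => Int.ediv_nonneg (by simp) (by positivity)) (by simp)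
  have k : ∀ x i, ∃ t, hist O Q x (i + 2) = O (enc (M1 (g x))) :: O (enc (M2 (g x))) :: t := fun x i => by
    induction i with
    | zero => exact ⟨[], by simp [hist, Q]⟩
    | succ i ih => obtain ⟨t, ih⟩ := ih; exact ⟨_, by rw [hist, ih]; rfl⟩
  refine ⟨Q, _, (p + q).comp (4 * X + 1) + 2, polyTime_of_PT (PT.cond (by fun_prop)
    (h1.comp (by fun_prop)) (h2.comp (by fun_prop))), polyTime_of_PT c.snd,
    fun x => ⟨fun i _ => ?_, ?_⟩⟩
  · have s := size_bools x
    have := (hp x).trans (eval_mono p s)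
    have := (hq x).trans (eval_mono q s)
    simp only [Q, dz_enc, eval_add, eval_comp, eval_mul, eval_X, eval_ofNat, eval_one, size] at *
    cases (hist O Q x i).isEmpty <;> simp <;> omega
  · obtain ⟨t, k⟩ := k x (((p + q).comp (4 * X + 1)).eval x.length)
    rw [eval_add, eval_ofNat, k, (e x).2, (formula (e x).1).2]
    simp [hO, posets]

lemma mem : ∃ F, InSharpP F ∧ ∀ M, IsPoset M → F (enc M) = endc M := by
  classical
  let V := fun z : List (List Bool) × List ℕ => z.2.length = z.1.length ∧ (∀ v ∈ z.2, v < z.1.length) ∧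
    ∀ i < z.1.length, ∀ j < z.1.length, ent z.1 i j → ent z.1 (z.2.getD i 0) (z.2.getD j 0)
  have hV : PP V := PP.and (by fun_prop) (PP.and (PP.ball (by fun_prop) (by fun_prop)) (PP.ball_lt
    (PP.ball_lt (PP.imp (by fun_prop) (by fun_prop)) (by fun_prop)) (by fun_prop)))
  obtain ⟨f, hf, e⟩ := PP.and (p := fun z => enc (decode (unp z).2 : List ℕ) = (unp z).2) (by fun_prop)
    (hV.comp (f := fun z => (decode (unp z).1, decode (unp z).2)) (by fun_prop))
  refine ⟨_, ⟨{z | f z}, inP_of_PT hf fun _ => Iff.rfl, X * (2 * X + 2) + 1, fun _ => rfl⟩, fun M _ => ?_⟩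
  simp only [Set.mem_ofPred_eq, ← e, unp_pairStr, decode_enc]
  refine (Set.ncard_congr (s := {f : Fin M.length → Fin M.length | ∀ i j, Le M i j → Le M (f i) (f j)})
    (fun f _ => enc (List.ofFn fun i => (f i).1)) (fun f h => ?_)
    (fun f g _ _ h => funext fun i => Fin.ext (congrFun (List.ofFn_injective (enc_inj h)) i))
    ?_).symm
  rotate_right
  · rintro w ⟨_, a, b, c, d⟩
    refine ⟨fun i => ⟨(decode w : List ℕ)[i.1]'(by have := i.2; simp at b; omega),
      c _ (List.getElem_mem _)⟩, fun i j h => ?_, ?_⟩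
    · simpa [show (decode w : List ℕ).length = _ from b, ent, Le] using d i i.2 j j.2 h
    · exact (congrArg enc (List.ext_getElem (by simpa using b.symm) (by simp))).trans a
  refine ⟨?_, by simp, ?_⟩
  · have := length_lt_size M
    refine (size_list_le _ (2 * size M + 1) fun v hv => ?_).trans (by simp [size] at *; nlinarith)
    obtain ⟨i, rfl⟩ := List.mem_ofFn.1 hv
    have := (f i).2
    simp; omega
  · rw [decode_enc]
    refine ⟨by simp, by simp, fun i hi j hj a => ?_⟩
    simpa [hi, hj, ent, Le] using h ⟨i, hi⟩ ⟨j, hj⟩ a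

theorem result : (∃ F, InSharpP F ∧ ∀ M, IsPoset M → F (enc M) = endc M) ∧
    ∀ F, InSharpP F → ∀ O : List Bool → List Bool,
      (∀ M, IsPoset M → O (enc M) = enc (endc M : ℤ)) → CookF F O :=
  ⟨mem, fun _ h _ => hard h⟩

end Pool.Agent.Results.MP_593132_lc.SharpP
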